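import Mathlib

set_option autoImplicit false
set_option linter.all false

/-! # UNI-9 (helper557): the maxima of the coefficients of a product, core estimates (helper427) -/

namespace Pool.Agent.Y427.U557

open Polynomial

variable {K : Type} [Field K] (f : AbsoluteValue K ℝ)

/-- the maximum of the absolute values of the coefficients -/
noncomputable def mx (P : K[X]) : ℝ := P.gaussNorm f 1

theorem le_mx (P : K[X]) (i : ℕ) : f (P.coeff i) ≤ mx f P := by
  have h := P.le_gaussNorm f zero_le_one i
  rwa [one_pow, mul_one] at h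

theorem mx_le (P : K[X]) {c : ℝ} (h : ∀ i, f (P.coeff i) ≤ c) : mx f P ≤ c := by
  obtain ⟨i, hi⟩ := P.exists_eq_gaussNorm f 1
  unfold mx
  rw [hi, one_pow, mul_one]
  exact h i

theorem mx_nonneg (P : K[X]) : 0 ≤ mx f P := (f.nonneg _).trans (le_mx f P 0)

theorem sup_eq_mx (G : K[X]) (N : ℕ) (hN : G.natDegree ≤ N) :
    (⨆ k : Fin (N + 1), f (G.coeff k)) = mx f G := by
  apply le_antisymm
  · exact ciSup_le fun k => le_mx f G k
  · apply mx_le
    intro i
    have hbd : BddAbove (Set.range fun k : Fin (N + 1) => f (G.coeff k)) :=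
      (Set.finite_range _).bddAbove
    by_cases h : i ≤ N
    · exact le_ciSup hbd ⟨i, by omega⟩
    · rw [Polynomial.coeff_eq_zero_of_natDegree_lt (by omega), map_zero]
      exact (f.nonneg _).trans (le_ciSup hbd 0)

theorem mx_C_mul (c : K) (P : K[X]) : mx f (C c * P) = f c * mx f P := by
  apply le_antisymm
  · apply mx_le
    intro i
    rw [coeff_C_mul, map_mul]
    exact mul_le_mul_of_nonneg_left (le_mx f P i) (f.nonneg _)
  · obtain ⟨i, hi⟩ := P.exists_eq_gaussNorm f 1
    have : mx f P = f (P.coeff i) := by unfold mx; rw [hi, one_pow, mul_one]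
    rw [this, ← map_mul, ← coeff_C_mul]
    exact le_mx f _ i

theorem coeff_succ (r : K) (H : K[X]) (i : ℕ) :
    ((X - C r) * H).coeff (i + 1) = H.coeff i - r * H.coeff (i + 1) := by
  rw [sub_mul, coeff_sub, coeff_X_mul, coeff_C_mul]

theorem coeff_zero' (r : K) (H : K[X]) :
    ((X - C r) * H).coeff 0 = - (r * H.coeff 0) := by
  rw [sub_mul, coeff_sub, coeff_X_mul_zero, coeff_C_mul, zero_sub]

theorem mx_X_sub (r : K) (H : K[X]) :
    mx f ((X - C r) * H) ≤ 2 * max 1 (f r) * mx f H := by
  have h0 := mx_nonneg f H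
  have h1 : (1 : ℝ) ≤ max 1 (f r) := le_max_left _ _
  have h2 : f r ≤ max 1 (f r) := le_max_right _ _
  apply mx_le
  intro i
  rcases i with _ | i
  · rw [coeff_zero', AbsoluteValue.map_neg, map_mul]
    have := le_mx f H 0
    have h3 : f r * f (H.coeff 0) ≤ max 1 (f r) * mx f H :=
      mul_le_mul h2 this (f.nonneg _) (by linarith)
    nlinarith
  · rw [coeff_succ]
    have h3 : f (H.coeff i - r * H.coeff (i + 1)) ≤ f (H.coeff i) + f (r * H.coeff (i + 1)) := by
      have := f.add_le (H.coeff i) (-(r * H.coeff (i + 1)))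
      rwa [AbsoluteValue.map_neg, ← sub_eq_add_neg] at this
    rw [map_mul] at h3
    have h4 := le_mx f H i
    have h5 : f r * f (H.coeff (i + 1)) ≤ max 1 (f r) * mx f H :=
      mul_le_mul h2 (le_mx f H (i + 1)) (f.nonneg _) (by linarith)
    nlinarith

theorem key_small (r : K) (hr : f r ≤ 1) (R : K[X]) (M : ℕ) (hM : R.natDegree ≤ M) :
    ∀ j i : ℕ, M + 1 ≤ i + j → f (R.coeff i) ≤ j * mx f ((X - C r) * R) := by
  intro j
  induction j with
  | zero =>
    intro i hi
    rw [coeff_eq_zero_of_natDegree_lt (by omega), map_zero]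
    simp
  | succ j ih =>
    intro i hi
    have h1 := ih (i + 1) (by omega)
    have h2 := le_mx f ((X - C r) * R) (i + 1)
    have e : R.coeff i = ((X - C r) * R).coeff (i + 1) + r * R.coeff (i + 1) := by
      rw [coeff_succ]; ring
    have h3 : f (R.coeff i) ≤ f (((X - C r) * R).coeff (i + 1)) + f (r * R.coeff (i + 1)) := by
      conv_lhs => rw [e]
      exact f.add_le _ _
    rw [map_mul] at h3
    have h4 : f r * f (R.coeff (i + 1)) ≤ 1 * f (R.coeff (i + 1)) :=
      mul_le_mul_of_nonneg_right hr (f.nonneg _)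
    push_cast
    linarith

theorem key_big (r : K) (hr : 1 ≤ f r) (R : K[X]) :
    ∀ i : ℕ, f r * f (R.coeff i) ≤ (i + 1) * mx f ((X - C r) * R) := by
  intro i
  induction i with
  | zero =>
    have h := le_mx f ((X - C r) * R) 0
    rw [coeff_zero', AbsoluteValue.map_neg, map_mul] at h
    simpa using h
  | succ i ih =>
    have h2 := le_mx f ((X - C r) * R) (i + 1)
    have e : r * R.coeff (i + 1) = R.coeff i + -((X - C r) * R).coeff (i + 1) := by
      rw [coeff_succ]; ring
    have h3 : f (r * R.coeff (i + 1)) ≤ f (R.coeff i) + f (((X - C r) * R).coeff (i + 1)) := by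
      conv_lhs => rw [e]
      have := f.add_le (R.coeff i) (-((X - C r) * R).coeff (i + 1))
      rwa [AbsoluteValue.map_neg] at this
    rw [map_mul] at h3
    have h4 : 1 * f (R.coeff i) ≤ f r * f (R.coeff i) :=
      mul_le_mul_of_nonneg_right hr (f.nonneg _)
    push_cast
    linarith

theorem key (r : K) (R : K[X]) (M : ℕ) (hM : R.natDegree ≤ M) :
    max 1 (f r) * mx f R ≤ (M + 1) * mx f ((X - C r) * R) := by
  obtain ⟨i, hi⟩ := R.exists_eq_gaussNorm f 1
  have e : mx f R = f (R.coeff i) := by unfold mx; rw [hi, one_pow, mul_one]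
  have h0 := mx_nonneg f ((X - C r) * R)
  rw [e]
  rcases le_total (f r) 1 with h | h
  · rw [max_eq_left h, one_mul]
    have := key_small f r h R M hM (M + 1) i (by omega)
    push_cast at this
    exact this
  · rw [max_eq_right h]
    by_cases hiM : i ≤ M
    · refine (key_big f r h R i).trans ?_
      have : (i : ℝ) ≤ M := by exact_mod_cast hiM
      exact mul_le_mul_of_nonneg_right (by linarith) h0
    · rw [coeff_eq_zero_of_natDegree_lt (by omega), map_zero, mul_zero]
      positivity

theorem natDegree_prod (s : Multiset K) (R : K[X]) :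
    ((s.map fun r => X - C r).prod * R).natDegree ≤ s.card + R.natDegree := by
  refine natDegree_mul_le.trans ?_
  rw [natDegree_multiset_prod_X_sub_C_eq_card]

theorem prod_lower (R : K[X]) (M : ℕ) (s : Multiset K) (hs : s.card + R.natDegree ≤ M) :
    (s.map fun r => max 1 (f r)).prod * mx f R ≤
      ((M : ℝ) + 1) ^ s.card * mx f ((s.map fun r => X - C r).prod * R) := by
  induction s using Multiset.induction_on with
  | empty => simp
  | cons a s ih =>
    rw [Multiset.card_cons] at hs
    have h1 := ih (by omega)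
    have hd := natDegree_prod s R
    have h2 := key f a ((s.map fun r => X - C r).prod * R) M (by omega)
    rw [Multiset.map_cons, Multiset.prod_cons, Multiset.map_cons, Multiset.prod_cons,
      Multiset.card_cons, pow_succ, mul_assoc (X - C a)]
    have hm : (0 : ℝ) ≤ max 1 (f a) := le_trans zero_le_one (le_max_left _ _)
    calc max 1 (f a) * (s.map fun r => max 1 (f r)).prod * mx f R
        = max 1 (f a) * ((s.map fun r => max 1 (f r)).prod * mx f R) := by ring
      _ ≤ max 1 (f a) * (((M : ℝ) + 1) ^ s.card * mx f ((s.map fun r => X - C r).prod * R)) :=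
          mul_le_mul_of_nonneg_left h1 hm
      _ = ((M : ℝ) + 1) ^ s.card * (max 1 (f a) * mx f ((s.map fun r => X - C r).prod * R)) := by
          ring
      _ ≤ ((M : ℝ) + 1) ^ s.card *
          (((M : ℝ) + 1) * mx f ((X - C a) * ((s.map fun r => X - C r).prod * R))) :=
          mul_le_mul_of_nonneg_left h2 (by positivity)
      _ = _ := by ring

theorem prod_upper (s : Multiset K) :
    mx f (s.map fun r => X - C r).prod ≤ 2 ^ s.card * (s.map fun r => max 1 (f r)).prod := by
  induction s using Multiset.induction_on with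
  | empty =>
    rw [Multiset.map_zero, Multiset.prod_zero, Multiset.map_zero, Multiset.prod_zero,
      Multiset.card_zero, pow_zero, mul_one]
    apply mx_le
    intro i
    rw [coeff_one]
    split_ifs <;> simp
  | cons a s ih =>
    rw [Multiset.map_cons, Multiset.prod_cons, Multiset.map_cons, Multiset.prod_cons,
      Multiset.card_cons, pow_succ]
    have hm : (0 : ℝ) ≤ max 1 (f a) := le_trans zero_le_one (le_max_left _ _)
    refine (mx_X_sub f a _).trans ?_
    calc 2 * max 1 (f a) * mx f (s.map fun r => X - C r).prod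
        ≤ 2 * max 1 (f a) * (2 ^ s.card * (s.map fun r => max 1 (f r)).prod) :=
          mul_le_mul_of_nonneg_left ih (by positivity)
      _ = _ := by ring

theorem prod_max_nonneg (s : Multiset K) : 0 ≤ (s.map fun r => max 1 (f r)).prod := by
  apply Multiset.prod_nonneg
  intro x hx
  obtain ⟨r, _, rfl⟩ := Multiset.mem_map.1 hx
  exact le_trans zero_le_one (le_max_left _ _)

theorem div_core (G R : K[X]) (N : ℕ) (hG : G.Splits) (hGN : G.natDegree ≤ N)
    (hRN : R.natDegree ≤ N) :
    mx f G * mx f R ≤ (2 * (2 * N + 1) : ℝ) ^ N * mx f (G * R) := by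
  have e : G = C G.leadingCoeff * (G.roots.map fun r => X - C r).prod := hG.eq_prod_roots
  have hc : G.roots.card ≤ N := (card_roots' G).trans hGN
  set c := G.leadingCoeff with hcdef
  set s := G.roots with hs
  have h1 := prod_lower f R (2 * N) s (by omega)
  have h2 := prod_upper f s
  have h3 := prod_max_nonneg f s
  have eG : mx f G = f c * mx f (s.map fun r => X - C r).prod := by
    conv_lhs => rw [e]
    exact mx_C_mul f _ _
  have eGR : mx f (G * R) = f c * mx f ((s.map fun r => X - C r).prod * R) := by
    conv_lhs => rw [e]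
    rw [mul_assoc]
    exact mx_C_mul f _ _
  rw [eG, eGR]
  have hR := mx_nonneg f R
  have hGR := mx_nonneg f ((s.map fun r => X - C r).prod * R)
  have hfc := f.nonneg c
  have hN : (0 : ℝ) ≤ N := Nat.cast_nonneg N
  push_cast at h1
  calc f c * mx f (s.map fun r => X - C r).prod * mx f R
      ≤ f c * (2 ^ s.card * (s.map fun r => max 1 (f r)).prod) * mx f R := by
        apply mul_le_mul_of_nonneg_right _ hR
        exact mul_le_mul_of_nonneg_left h2 hfc
    _ = f c * 2 ^ s.card * ((s.map fun r => max 1 (f r)).prod * mx f R) := by ring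
    _ ≤ f c * 2 ^ s.card * ((2 * (N : ℝ) + 1) ^ s.card *
        mx f ((s.map fun r => X - C r).prod * R)) :=
        mul_le_mul_of_nonneg_left h1 (by positivity)
    _ = (2 * (2 * N + 1) : ℝ) ^ s.card * (f c * mx f ((s.map fun r => X - C r).prod * R)) := by
        rw [mul_pow]; ring
    _ ≤ (2 * (2 * N + 1) : ℝ) ^ N * (f c * mx f ((s.map fun r => X - C r).prod * R)) := by
        apply mul_le_mul_of_nonneg_right _ (by positivity)
        exact pow_le_pow_right₀ (by linarith) hc

end Pool.Agent.Y427.U557
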