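import Mathlib
import Pool.Agent.TH876.KR.Fin
import Pool.Agent.Y427.U557.DivCore

set_option autoImplicit false
set_option linter.all false

/-! # UNI-9 (helper557): the maxima of the coefficients of a product one factor of which splits
(helper427). The statement is `S_DIV K` of `Pool.Agent.Y557.U.Stm4`, unfolded. -/

namespace Pool.Agent.Y427.U557

open NumberField IsDedekindDomain Finset Polynomial
open Pool.Agent.H691R3 Pool.Agent.TH876.Loc

theorem div_holds (K : Type) [Field K] [NumberField K] :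
    ∀ N : ℕ, ∃ A : ℝ, 1 ≤ A ∧ ∀ G R : K[X], G.Splits → G.natDegree ≤ N → R.natDegree ≤ N →
    (∀ v : Pr K, (⨆ k : Fin (N + 1), fv v (G.coeff k)) * (⨆ k : Fin (N + 1), fv v (R.coeff k)) =
      ⨆ k : Fin (2 * N + 1), fv v ((G * R).coeff k)) ∧
    ∀ w : InfinitePlace K,
      (⨆ k : Fin (N + 1), w (G.coeff k)) * (⨆ k : Fin (N + 1), w (R.coeff k)) ≤
        A * ⨆ k : Fin (2 * N + 1), w ((G * R).coeff k) := by
  intro N
  refine ⟨(2 * (2 * N + 1) : ℝ) ^ N, ?_, ?_⟩
  · apply one_le_pow₀
    have : (0 : ℝ) ≤ N := Nat.cast_nonneg N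
    linarith
  · intro G R hG hGN hRN
    have hd : (G * R).natDegree ≤ 2 * N := by
      refine natDegree_mul_le.trans ?_
      omega
    constructor
    · intro v
      rw [sup_eq_mx (fv v) G N hGN, sup_eq_mx (fv v) R N hRN, sup_eq_mx (fv v) (G * R) (2 * N) hd]
      unfold mx
      rw [Polynomial.gaussNorm_mul (fun a b => fv_na v a b) one_pos]
    · intro w
      have h1 := sup_eq_mx w.1 G N hGN
      have h2 := sup_eq_mx w.1 R N hRN
      have h3 := sup_eq_mx w.1 (G * R) (2 * N) hd
      have h := div_core w.1 G R N hG hGN hRN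
      rw [← h1, ← h2, ← h3] at h
      exact h

end Pool.Agent.Y427.U557
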